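import Pool.Agent.H75.ST.Stmt

/-!
DB: decoding of type beta.
-/

set_option autoImplicit false

open Set Pool.Agent.TK

namespace Pool.Agent.ST

private lemma restr76 {C : Type} {c0 : C} {M : St C} {a : ℕ → List ℕ} {D : ℕ → Set ℕ}
    {R : ℕ → St C} (h : RD c0 M a D R univ) (y : Set ℕ) : RD c0 M a D R y where
  val := h.val
  valR := fun i _ => h.valR i (mem_univ i)
  cpM := fun i _ => h.cpM i (mem_univ i)
  cpR := fun i _ => h.cpR i (mem_univ i)
  pi := fun i _ => h.pi i (mem_univ i)
  disj := fun i _ j _ => h.disj i (mem_univ i) j (mem_univ j)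
  disjA := fun i _ j _ => h.disjA i (mem_univ i) j (mem_univ j)

private lemma rmono76 {C : Type} {r : ℕ → Rk} (h : ∀ i, RLe C (r i) (r (i + 1))) {i j : ℕ}
    (hij : i ≤ j) : RLe C (r i) (r j) := by
  induction hij with
  | refl => exact RLe.refl _
  | step _ ih => exact ih.trans (h _)

/-- a connected set which avoids `B` is inside the component of each of its points -/
private lemma sub76 {C : Type} {M : St C} {S B : Set ℕ} (hS : Cd M S)
    (hSB : Disjoint S B) {x : ℕ} (hx : x ∈ S) : S ⊆ cp M B x := by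
  intro u hu
  exact (hS.2 x hx u hu).mono (fun y hy hyS => Set.disjoint_left.1 hSB hyS hy)

theorem pf_DB {C : Type} [MeasurableSpace C] {c0 : C} (hSAT : SAT C c0) (hFLT : FLT C c0)
    (hBIG : BIG C c0) (hPDB : PDB C c0) (hRPF : RPF C c0) (hLDR2 : LDR2 C c0) : DB C c0 := by
  intro b X M w E D a R r ld hbeta y hy w' hw' i
  have hM : Valid c0 M := ld.hyp.val M ld.hM
  obtain ⟨hdisj, hDB, -⟩ := hPDB M hM w E D ld.pd
  have hRD := restr76 (hLDR2 b X M w E D a R r ld) y
  obtain ⟨hV, -, -, -, -, hcp, -⟩ := hRPF M a D R y hRD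
  obtain ⟨-, -, -, -, hsat⟩ := hSAT b X M w E D a R r ld y
  have hbig := hBIG b X M w E D a R r ld y w' hw'
  have hflt := hFLT b X M w E D a R r ld y
  set N := repl c0 M a D R y with hN
  set B := Dm M w with hB
  have hcd : ∀ j ∈ y, Cd N (D j) := fun j hj => (hcp j hj).cd hV
  constructor
  · intro hi
    obtain ⟨v, hv⟩ := (ld.pd.cpD i).nonempty
    have hvB : v ∉ B := fun h => Set.disjoint_left.1 (hDB i) hv h
    -- the component of `M - B` which contains `D i`
    set U := cp M B v with hU
    have hUcp : IsCp M B U := isCp_cp hvB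
    have hDiU : D i ⊆ U := sub76 ((ld.pd.cpD i).cd hM) (hDB i) hv
    have hDjU : ∀ j, j ≠ i → Disjoint (D j) U := by
      intro j hj
      rw [Set.disjoint_left]
      intro u hu huU
      exact hbeta i j hj.symm v hv u hu huU
    have hUsat : ∀ j ∈ y, D j ⊆ U ∨ Disjoint (D j) U := by
      intro j _
      by_cases hj : j = i
      · left; rw [hj]; exact hDiU
      · right; exact hDjU j hj
    have hnbM : Nb M U ⊆ B := hUcp.nb hM
    have hnb : Nb N U ⊆ B := by
      rw [hsat U hUsat]
      · exact hnbM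
      · intro j _
        exact (hDB j).symm.mono_left hnbM
    have hcpU : cp N B v ⊆ U := by
      intro u hu
      by_contra huU
      obtain ⟨x, hx, hxB, -, -⟩ := Conn.exit hV hu (self_mem_cp hvB : v ∈ U) huU
      exact hxB (hnb hx)
    refine ⟨v, hvB, ⟨E i, D i, (hbig i hi).1, sub76 (hcd i hi) (hDB i) hv, (hbig i hi).2⟩, ?_⟩
    intro F D' hoff hD'
    refine hflt (i + 1) F D' hoff.1 hoff.2.1 ?_
    intro j hj hij
    have hji : j ≠ i := by omega
    have hD'U : D' ⊆ U := hD'.trans hcpU
    rw [Set.disjoint_union_left]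
    refine ⟨(hDjU j hji).symm.mono_left hD'U, ?_⟩
    rw [Set.disjoint_left]
    intro u hu huj
    rcases Nb_mono_of_disj hD'U hu with h | h
    · exact Set.disjoint_left.1 (hDB j) huj (hnb h)
    · exact Set.disjoint_left.1 (hDjU j hji) huj h
  · rintro ⟨v, hvB, ⟨F, D', hoff, hD', hns⟩, hall⟩
    by_contra hi
    apply hns
    refine hflt i F D' hoff.1 hoff.2.1 ?_
    intro j hj hij
    have hij' : i + 1 ≤ j := by
      rcases Nat.lt_or_ge i j with h | h
      · exact h
      · exact absurd (le_antisymm h hij ▸ hj) hi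
    rw [Set.disjoint_left]
    intro u hu huj
    have huB : u ∉ B := fun h => Set.disjoint_left.1 (hDB j) huj h
    have hcpv : IsCp N B (cp N B v) := isCp_cp hvB
    have huc : u ∈ cp N B v := by
      rcases hu with h | h
      · exact hD' h
      · rcases Nb_mono_of_disj hD' h with h' | h'
        · exact absurd (hcpv.nb hV h') huB
        · exact h'
    have hDj : D j ⊆ cp N B v := (hcd j hj).subset hV hcpv (hDB j) huj huc
    obtain ⟨a', ha', hs⟩ := hall (E j) (D j) (hbig j hj).1 hDj
    exact (hbig j hj).2 ⟨a', ha', hs.rank (rmono76 ld.rle hij')⟩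

end Pool.Agent.ST
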