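import Pool.Agent.H75.ST.Stmt

/-!
KL: the level lemma for arbitrary directions.
-/

set_option autoImplicit false

open Set Pool.Agent.TK

namespace Pool.Agent.ST

private lemma restr76 {C : Type} {c0 : C} {M : St C} {a : ℕ → List ℕ} {D : ℕ → Set ℕ}
    {R : ℕ → St C} (h : RD c0 M a D R univ) (y : Set ℕ) : RD c0 M a D R y where
  val := h.val
  valR := fun i _ => h.valR i (mem_univ i)
  cpM := fun i _ => h.cpM i (mem_univ i)
  cpR := fun i _ => h.cpR i (mem_univ i)
  pi := fun i _ => h.pi i (mem_univ i)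
  disj := fun i _ j _ => h.disj i (mem_univ i) j (mem_univ j)
  disjA := fun i _ j _ => h.disjA i (mem_univ i) j (mem_univ j)

private lemma symm76 {C : Type} {M M' : St C} {a : List ℕ} (h : IsoO a M M') : IsoO a M' M := by
  obtain ⟨g, h1, h2, h3⟩ := h
  refine ⟨g.symm, ?_, ?_, ?_⟩
  · intro z hz
    rw [Equiv.symm_apply_eq]
    exact (h1 z hz).symm
  · intro u v
    rw [h2]
    simp
  · intro l
    rw [h3]
    simp [List.map_map, Function.comp_def]

/-- the sets which index the family -/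
private def phi76 (u : ℕ → Bool) : Set ℕ :=
  {i | (∃ j, i = 2 * j ∧ u j = true) ∨ ∃ j, i = 2 * j + 1}

private lemma phi_meas76 (i : ℕ) : MeasurableSet {u : ℕ → Bool | i ∈ phi76 u} := by
  rcases Nat.even_or_odd' i with ⟨j, hj | hj⟩
  · have : {u : ℕ → Bool | i ∈ phi76 u} = {u | u j = true} := by
      ext u
      simp only [phi76, mem_ofPred_eq]
      constructor
      · rintro (⟨j', h1, h2⟩ | ⟨j', h1⟩)
        · have : j' = j := by omega
          rw [← this]; exact h2
        · omega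
      · intro h; exact Or.inl ⟨j, hj, h⟩
    rw [this]
    have hm : Measurable fun u : ℕ → Bool => u j := measurable_pi_apply j
    exact hm (measurableSet_singleton true)
  · have : {u : ℕ → Bool | i ∈ phi76 u} = univ := by
      ext u
      simp only [phi76, mem_ofPred_eq, mem_univ, iff_true]
      exact Or.inr ⟨j, hj⟩
    rw [this]
    exact MeasurableSet.univ

private lemma phi_inf76 (u : ℕ → Bool) : (phi76 u).Infinite := by
  refine Set.infinite_of_injective_forall_mem (f := fun j : ℕ => 2 * j + 1) ?_ ?_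
  · intro i j hij
    have : 2 * i + 1 = 2 * j + 1 := hij
    omega
  · intro j; exact Or.inr ⟨j, rfl⟩

private lemma phi_sub76 {u u' : ℕ → Bool} (h : phi76 u ⊆ phi76 u') {j : ℕ} (hu : u j = true) :
    u' j = true := by
  rcases h (show 2 * j ∈ phi76 u from Or.inl ⟨j, rfl, hu⟩) with ⟨j', h3, h4⟩ | ⟨j', h3⟩
  · have : j' = j := by omega
    rw [← this]; exact h4
  · omega

/-- the final argument: a family without isomorphic members contradicts `NoFam` -/
private lemma fam76 {C : Type} [MeasurableSpace C] {c0 : C} (hMEA : MEA C c0) (hMEM : MEM C c0)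
    {b : Rk} {X : Set (St C)} {M : St C} (H : Hyp c0 b X) (hM : M ∈ X)
    {a : ℕ → List ℕ} {D : ℕ → Set ℕ} {R : ℕ → St C} (hRD : RD c0 M a D R univ)
    (hbf : ∀ i, bf M (R i) (D i) (D i) b (dg (a i))) (l : List ℕ)
    (hdec : ∀ y z : Set ℕ, y.Infinite → z.Infinite →
      IsoO l (repl c0 M a D R y) (repl c0 M a D R z) → y ⊆ z) : False := by
  obtain ⟨u, u', hne, hiso⟩ := H.nf (fun u => repl c0 M a D R (phi76 u)) l
    (hMEA M a D R hRD phi76 phi_meas76)
    (fun u => hMEM X b H.val H.cl M hM a D R (phi76 u) (restr76 hRD _) (fun i _ => hbf i))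
  have h1 := hdec _ _ (phi_inf76 u) (phi_inf76 u') hiso
  have h2 := hdec _ _ (phi_inf76 u') (phi_inf76 u) (symm76 hiso)
  apply hne
  funext j
  rw [Bool.eq_iff_iff]
  exact ⟨phi_sub76 h1, phi_sub76 h2⟩

theorem pf_KL {C : Type} [MeasurableSpace C] {c0 : C} (hPDX : PDX C c0) (hPDB : PDB C c0)
    (hAB : AB C c0) (hLDX2 : LDX2 C c0) (hLDR2 : LDR2 C c0) (hLDD2 : LDD2 C c0)
    (hDA : DA C c0) (hDB : DB C c0) (hTRN : TRN C c0) (hUNI : UNI C c0) (hMEA : MEA C c0)
    (hMEM : MEM C c0) : KL C c0 := by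
  intro b X H M hMX w hw
  have hM : Valid c0 M := H.val M hMX
  by_contra hcon
  push Not at hcon
  obtain ⟨E0, D0, hpd0, hns0⟩ := hPDX M hM w hw (fun D => ¬ Sm c0 b M D)
    (fun A hA => by
      obtain ⟨F, D, h1, h2, h3⟩ := hcon A hA
      exact ⟨F, D, h1, h2, h3⟩)
  obtain ⟨k, hk, hcase⟩ := hAB M hM w E0 D0 hpd0
  have hpd := (hPDB M hM w E0 D0 hpd0).2.2.2.2.2.2.2.2.2.2 k hk
  have hns : ∀ i, ¬ Sm c0 b M (D0 (k i)) := fun i => hns0 (k i)
  generalize (fun i => E0 (k i)) = E at hpd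
  generalize hD : (fun i => D0 (k i)) = D at hpd hcase
  have hns' : ∀ i, ¬ Sm c0 b M (D i) := by
    intro i; rw [← hD]; exact hns i
  obtain ⟨a, R, r, ld⟩ := hLDX2 b X H M hMX w E D hpd hns'
  have hRD := hLDR2 b X M w E D a R r ld
  have hmem : ∀ y : Set ℕ, repl c0 M a D R y ∈ X := fun y =>
    hMEM X b H.val H.cl M hMX a D R y (restr76 hRD y) (fun i _ => ld.bfR i)
  -- an isomorphism respects the directions and the dominating vertices
  have hstep : ∀ y z : Set ℕ, y.Infinite → z.Infinite → ∀ h : Equiv.Perm ℕ,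
      IsoH h (repl c0 M a D R y) (repl c0 M a D R z) →
      ∃ w' w'', Dir2 (repl c0 M a D R y) w E w' ∧ Dir2 (repl c0 M a D R z) w E w'' ∧
        h '' Dm M w = Dm M w ∧
        (∀ B x n i, DecA c0 r (repl c0 M a D R y) w' B x n i →
          DecA c0 r (repl c0 M a D R z) w'' (h '' B) (h x) n i) ∧
        ∀ B i, DecB c0 r (repl c0 M a D R y) w' B i →
          DecB c0 r (repl c0 M a D R z) w'' (h '' B) i := by
    intro y z hy hz h hiso
    obtain ⟨⟨w', hw'⟩, hd'⟩ := hLDD2 b X M w E D a R r ld y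
    obtain ⟨⟨w'', hw''⟩, hd''⟩ := hLDD2 b X M w E D a R r ld z
    have huni := hUNI b X M w E D a R r ld y z hy hz w' w'' hw' hw'' h hiso
    obtain ⟨t1, -, t3, t4⟩ := hTRN h _ _ (H.val _ (hmem y)) (H.val _ (hmem z)) hiso w' w''
      hw'.1 huni
    rw [(hd' w' hw').2, (hd'' w'' hw'').2] at t1
    exact ⟨w', w'', hw', hw'', t1.symm, t3 r, t4 r⟩
  rcases hcase with hbeta | ⟨x, n, K, halpha⟩
  · refine fam76 hMEA hMEM H hMX hRD ld.bfR [] ?_
    rintro y z hy hz ⟨h, -, h2, h3⟩ i hi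
    obtain ⟨w', w'', hw', hw'', hDm, -, hdB⟩ := hstep y z hy hz h ⟨h2, h3⟩
    have h4 := (hDB b X M w E D a R r ld hbeta y hy w' hw' i).1 hi
    have h5 := hdB _ _ h4
    rw [hDm] at h5
    exact (hDB b X M w E D a R r ld hbeta z hz w'' hw'' i).2 h5
  · refine fam76 hMEA hMEM H hMX hRD ld.bfR [x] ?_
    rintro y z hy hz ⟨h, h1, h2, h3⟩ i hi
    obtain ⟨w', w'', hw', hw'', hDm, hdA, -⟩ := hstep y z hy hz h ⟨h2, h3⟩
    have hx : h x = x := h1 x (by simp)
    have h4 := (hDA b X M w E D a R r ld x n K halpha y hy w' hw' i).1 hi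
    have h5 := hdA _ _ _ _ h4
    rw [hDm, hx] at h5
    exact (hDA b X M w E D a R r ld x n K halpha z hz w'' hw'' i).2 h5

end Pool.Agent.ST
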